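import Pool.Agent.TH117.F5.Crys

/-!
# The crystalline Tate conjecture for abelian varieties of dimension at most five

Over an algebraic closure of the field with `p` elements each abelian variety is isogenous to the
reduction of an abelian variety of CM type (Honda, Tate). So an abelian variety over the field with
`p ^ a` elements is modelled by a finite product `X` of CM types `(E i, Φ i)` with Weil numbers
`π i ∈ E i` that satisfy the formula of Shimura and Taniyama (`RedAV`).

Let `Y` be an abelian variety of dimension at most five, with any Newton polygon and any
decomposition, that is not exceptional (`IsExceptional`: a product `A × B × S` of two abelian surfaces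
and a supersingular elliptic curve, such that the CM fields of `A` and `B` are not Galois over `ℚ` and
have the same Galois closure, and the product of two non-conjugate Frobenius eigenvalues of `B` is a
Frobenius eigenvalue of `A` times a square root of the number of elements of the ground field, up to
a root of unity).

Let `K₀` be the fraction field of the ring of Witt vectors of the field with `Q = (p ^ a) ^ s`
elements, and let `V₀` be the dual space of the first crystalline cohomology group of `Y` with
coefficients in `K₀`, with its linear Frobenius endomorphism `F₀`; the crystalline cohomology group
`H^{2m}(Y)` is the space of alternating forms of degree `2 m` on `V₀`. Over an algebraically closed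
field `Ω` that contains `K₀` the space `V₀` is identified with `Ω ⊗ H_1(X, ℚ)`, where `F₀` is the
multiplication by `π ^ s` (`IsCrystalline`; the theorem holds for all fields `K₀`).

Let `A ⊆ H^{2m}(Y)` be the space spanned over `K₀` by the classes of algebraic cycles of codimension
`m` on `Y` over the field with `Q` elements. The theorem uses only that `A` contains each class `g`
with `Fr g = Q ^ m g` that belongs, over `Ω`, to the smallest system of cohomology classes of abelian
varieties over finite fields that contains the Tate classes of degree two and the reductions of the
Weil classes of imaginary quadratic fields on abelian fourfolds and sixfolds of CM type and of split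
Weil type, and that is stable under linear combinations, cup products, pull-backs along
homomorphisms and push-forwards along projections. (These classes are algebraic by theorems of Tate
and Markman; the average of the conjugates of a cycle is defined over the ground field.)

Then each class `f` in the crystalline cohomology group `H^{2m}(Y)` with `Fr f = Q ^ m f` belongs
to `A`.
-/

namespace Pool.Agent.Results.MP_60ec62_ag.AbelianDimensionFive

open Pool.Agent.W495.TA Pool.Agent.W547.KB Pool.Agent.TH117.F5
open scoped TensorProduct

/-- `Y` has dimension at most five and is not exceptional, `V₀` is the dual of the first crystalline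
cohomology group, `F₀` its linear Frobenius endomorphism: the space `A` of classes of cycles contains
all Tate classes `f`. -/
theorem result (p : ℕ) [Fact p.Prime] (ν : PadicAlgCl p ≃+* ℂ) (Y : RedAV p ν)
    (hY : Module.finrank ℚ Y.X.H1 ≤ 10) (hex : ¬ IsExceptional Y) (s : ℕ) (hs : 0 < s)
    {K₀ Ω V₀ : Type} [Field K₀] [CharZero K₀] [Field Ω] [IsAlgClosed Ω] [CharZero Ω]
    [Algebra K₀ Ω] [AddCommGroup V₀] [Module K₀ V₀] [FiniteDimensional K₀ V₀]
    (F₀ : V₀ →ₗ[K₀] V₀) (e : (Ω ⊗[K₀] V₀) ≃ₗ[Ω] TM Ω Y) (he : IsCrystalline Y s F₀ e) {m : ℕ}
    (A : Submodule K₀ (V₀ [⋀^Fin (2 * m)]→ₗ[K₀] K₀)) (hA : ContainsAlg s F₀ e A)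
    (f : V₀ [⋀^Fin (2 * m)]→ₗ[K₀] K₀) (hf : IsTateCrys F₀ ((p ^ Y.a) ^ s) m f) : f ∈ A :=
  crys hY hex s hs F₀ e he A hA f hf

end Pool.Agent.Results.MP_60ec62_ag.AbelianDimensionFive
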