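import Pool.Agent.TH540.SlopeAb

/-!
# Abelian varieties over finite fields with Frobenius in a cyclotomic field

Let `m` be one of `3, ..., 10, 12, 14, 15, 16, 18, 20, 22, 24, 30, 36, 42`, let `K` be the field of
`m`-th roots of unity, `p` a prime number which does not divide `m`, and `f` the order of `p` modulo
`m`. Let `X` be a product of abelian varieties over a finite field of characteristic `p` which
acquire multiplication by `K` (i.e. `K` of degree `2 * dim` over `ℚ` acts) over an extension: for
instance the reductions of all abelian varieties with complex multiplication by `K`, and powers of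
abelian varieties with multiplication by subfields of `K`. The following theorem gives the
crystalline Tate conjecture (and the `ℓ`-adic one) for `X` and for all varieties isogenous to
products of factors of such `X`, in all codimensions, up to the known facts below, which are not
formalised.

*The lines.* Such an abelian variety is determined up to isogeny, over an algebraically closed
field, by its slopes (Honda, Tate): its first cohomology group is a sum of lines, and the slopes of
the conjugates of the eigenvalue of Frobenius on one line are `φ t / f`, where `φ` is a function on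
the units modulo `m` with `φ (p * t) = φ t` and `φ (-t) + φ t = f`. So the Tate classes of
codimension `i` come from lists `F` of `2 * i` such functions, whose sum is the constant `f * i`.

*The theorem.* Every `φ` is the slope function of an eigenline of the first cohomology group of the
Fermat curve of degree `m`, given by three nonzero residues `c φ` modulo `m` with sum zero, by
Stickelberger's theorem. And for every `F` as above there is `N > 0`, prime to `p`, such that `N`
times the union of the lists `c φ`, `φ ∈ F`, is a member of the closure of the Tate characters of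
Fermat surfaces and of the standard characters of Aoki in degree `N * m`, so that the Tate classes
given by `F` are algebraic.
-/

namespace Pool.Agent.Results.MP_60ec62_ag.CyclotomicSlopes

open Pool.Agent.H916T

/-- The slope functions (times `f`) of the abelian varieties with multiplication by the field of
`m`-th roots of unity in characteristic `p`. -/
structure SlopeType (p m : ℕ) (φ : (ZMod m)ˣ → ℕ) : Prop where
  neg : ∀ t, φ (-t) + φ t = orderOf (p : ZMod m)
  frobenius : ∀ t t' : (ZMod m)ˣ, (t' : ZMod m) = (p : ZMod m) * t → φ t' = φ t

/-- The list `c` of three nonzero residues modulo `m` has sum zero, and the eigenline of the Fermat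
curve of degree `m` with character `c` has the slope function `φ`: for all units `t` the
representatives in `{1, ..., m - 1}` of the residues `p ^ j * t * a`, where `a ∈ c` and `0 ≤ j < f`,
have sum `m * (φ t + f)`. -/
structure CurveLine (p m : ℕ) (φ : (ZMod m)ˣ → ℕ) (c : Multiset (ZMod m)) : Prop where
  card_eq : Multiset.card c = 3
  zero_notMem : (0 : ZMod m) ∉ c
  sum_eq : c.sum = 0
  slopes_eq : ∀ t : (ZMod m)ˣ, ∑ j ∈ Finset.range (orderOf (p : ZMod m)),
    (c.map fun a => ((p : ZMod m) ^ j * ((t : ZMod m) * a)).val).sum =
      m * (φ t + orderOf (p : ZMod m))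

theorem result (p m : ℕ) (hpp : p.Prime) (hp : p.Coprime m)
    (hm : m ∈ [3, 4, 5, 6, 7, 8, 9, 10, 12, 14, 15, 16, 18, 20, 22, 24, 30, 36, 42] ∨
      (p = 2 ∧ (m = 11 ∨ m = 21))) :
    ∃ c : ((ZMod m)ˣ → ℕ) → Multiset (ZMod m),
      (∀ φ, SlopeType p m φ → CurveLine p m φ (c φ)) ∧
      ∀ (F : Multiset ((ZMod m)ˣ → ℕ)) (i : ℕ), 0 < i → (∀ φ ∈ F, SlopeType p m φ) →
        Multiset.card F = 2 * i →
        (∀ t, (F.map fun φ => φ t).sum = orderOf (p : ZMod m) * i) →
        ∃ N : ℕ, 0 < N ∧ p.Coprime N ∧ Generated (N * m)
          (fun t => SurfaceTate p (N * m) t ∨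
            ∃ q : ℕ, q.Prime ∧ q ∣ N * m ∧ Standard q (N * m) t)
          ((F.map c).join.map fun a => ((N * a.val : ℕ) : ZMod (N * m))) := by
  classical
  have hz : NeZero m := ⟨by
    rcases hm with hm | ⟨_, hm⟩
    · rintro rfl; simp at hm
    · omega⟩
  have hC : TH540.Curves p m := by
    rcases hm with hm | ⟨rfl, rfl | rfl⟩
    · exact TH540.curves_list hm hp
    · exact TH540.curves_of_okDeg (by norm_num) TH540.ok11 hp (by decide)
    · exact TH540.curves_of_okDeg (by norm_num) TH540.ok21 hp (by decide)
  have hT : ∀ s : Multiset (ZMod m), IsTate p m s → s ≠ 0 → H916Y.Concl p m s := by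
    intro s h1 h2
    rcases hm with hm | ⟨rfl, rfl | rfl⟩
    · exact TH540.concl_list hm hpp hp h1 h2
    · exact H916Y.all2311 hpp (by norm_num) (by norm_num) hp
          (TH540.primes_of_dvd (by norm_num) (by norm_num)) h1 h2
    · exact H916Y.all237 hpp (by norm_num) hp
          (TH540.primes_of_dvd (by norm_num) (by norm_num)) h1 h2
  have hch : ∀ φ : (ZMod m)ˣ → ℕ, ∃ c : Multiset (ZMod m), SlopeType p m φ →
      Multiset.card c = 3 ∧ (0 : ZMod m) ∉ c ∧ c.sum = 0 ∧
        ∀ t, TH540.Sl p m c t = m * (φ t + orderOf (p : ZMod m)) := by
    intro φ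
    by_cases h : SlopeType p m φ
    · obtain ⟨c, hc⟩ := TH540.slopes_of_curves hp hC φ h.neg h.frobenius
      exact ⟨c, fun _ => hc⟩
    · exact ⟨0, fun h' => absurd h' h⟩
  choose c hc using hch
  refine ⟨c, fun φ hφ => ?_, fun F i hi hF hcard hsum => ?_⟩
  · obtain ⟨h1, h2, h3, h4⟩ := hc φ hφ
    exact ⟨h1, h2, h3, h4⟩
  · obtain ⟨N, hN, hpN, h⟩ := hT _
      (TH540.isTate_slopes (fun φ hφ => hc φ (hF φ hφ)) hcard hsum) (by
        intro h
        have h1 : Multiset.card (F.map c).join = 3 * Multiset.card (F.map c) := by
          apply TH540.join_card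
          intro e he
          obtain ⟨φ, hφ, rfl⟩ := Multiset.mem_map.mp he
          exact (hc φ (hF φ hφ)).1
        rw [h, Multiset.card_zero, Multiset.card_map, hcard] at h1
        omega)
    exact ⟨N, hN, hpN, h (N * m) rfl⟩

end Pool.Agent.Results.MP_60ec62_ag.CyclotomicSlopes
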