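import Pool.Agent.TH943.TP.Sf

/-!
The crystalline Tate conjecture, in all codimensions, for the products of the surfaces
`v ^ (l ^ s) = (x - h(t)) ^ b f(x) ^ c` over finite fields.
-/

set_option autoImplicit false
set_option maxHeartbeats 1000000

open Polynomial TensorProduct

namespace Pool.Agent.Results.MP_60ec62_ag.ProductsOfCyclicSurfaces

section counts

variable {κ : Type} [Field κ]

/-- The data of a surface: polynomials `f` and `h` and exponents `b` and `c`. -/
structure Datum (κ : Type) [Field κ] : Type where
  f : κ[X]
  h : κ[X]
  b : ℕ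
  c : ℕ

/-- The value of the function `(x - h(t)) ^ b f(x) ^ c` at the point `(t, x) = (y 0, y 1)` of the affine
plane over `L`. -/
noncomputable def value (L : Type) [Field L] [Algebra κ L] (D : Datum κ) (y : Fin 2 → L) : L :=
  (y 1 - aeval (y 0) D.h) ^ D.b * (aeval (y 1) D.f) ^ D.c

/-- The number of points over `L` of the open set `U` of the plane where the function is not
zero. -/
noncomputable def openCount (L : Type) [Field L] [Algebra κ L] (D : Datum κ) : ℕ :=
  Set.ncard {y : Fin 2 → L | value L D y ≠ 0}

/-- The number of points over `L` of `U` where the power of the function with exponent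
`(|L| - 1) / N` is `z ^ i`. -/
noncomputable def fixCount (L : Type) [Field L] [Fintype L] [Algebra κ L] (D : Datum κ)
    (N : ℕ) (z : κ) (i : ℕ) : ℕ :=
  Set.ncard {y : Fin 2 → L | value L D y ≠ 0 ∧
    (value L D y) ^ ((Fintype.card L - 1) / N) = algebraMap κ L z ^ i}

/-- The polynomial `f(h(t))` is irreducible of degree not divisible by `l`, and the exponents are not
divisible by `l`. -/
structure IsAdmissible (l : ℕ) (D : Datum κ) : Prop where
  irreducible : Irreducible (D.f.comp D.h)
  degree : ¬ l ∣ D.f.natDegree * D.h.natDegree
  exponentH : ¬ l ∣ D.b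
  exponentF : ¬ l ∣ D.c

end counts

section cohomology

variable {E : Type} [Field E]

/-- A space with an endomorphism, the Frobenius. -/
structure Space (E : Type) [Field E] : Type 1 where
  V : Type
  [group : AddCommGroup V]
  [module : Module E V]
  [finite : FiniteDimensional E V]
  Ψ : Module.End E V

attribute [instance] Space.group Space.module Space.finite

/-- `M` is the part of nontrivial characters of the cohomology with compact supports, in degree two, of
the covering `U'`: `v ^ (l ^ s) = value` of `U`, `g` a generator of the covering group. -/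
structure IsOpenPart {κ : Type} [Field κ] (l s : ℕ) (z : κ) (D : Datum κ) (M : Space E)
    (g : Module.End E M.V) : Prop where
  commute : Commute M.Ψ g
  order : g ^ l ^ s = 1
  noInvariants : ∀ v, g v = v → v = 0
  /-- `U'` has `l ^ s fixCount` fixed points of the composition of the Frobenius over `L` and `g ^ i`,
  and `openCount` is the contribution of the trivial character -/
  lefschetz : ∀ (L : Type) [Field L] [Fintype L] [Algebra κ L] (i : ℕ),
    LinearMap.trace E M.V (M.Ψ ^ Module.finrank κ L * g ^ i) =
      (l : E) ^ s * (fixCount L D (l ^ s) z i : E) - (openCount L D : E)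
  /-- the dimension of the part of one character is the Euler characteristic of `U` -/
  dimension : ∀ ω : E, ω ≠ 1 → ω ^ l ^ s = 1 → Module.finrank E (g.eigenspace ω) +
    D.f.natDegree = D.f.natDegree * D.h.natDegree

/-- The cohomology `H` of the surface `S`, the part `M` of the cohomology of the covering `U'`, with a
generator `g` of the covering group, and the space `A` with a basis consisting of the boundary
curves, of `S` and of a point, with the Frobenius; and the maps to `H`. -/
structure Surface (E : Type) [Field E] : Type 1 where
  H : Space E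
  A : Space E
  M : Space E
  g : Module.End E M.V
  α : A.V →ₗ[E] H.V
  π : M.V →ₗ[E] H.V

/-- The maps commute with the Frobenius, `H` is the sum of the images, and the Frobenius on `A`, a power
of `q` times a permutation on every orbit of basis vectors, is semisimple with eigenvalues `q ^ a ζ`,
`ζ` a root of unity whose order divides a power of `l` times the degree of `f(h(t))`. -/
structure IsSurface {κ : Type} [Field κ] [Fintype κ] (l s : ℕ) (z : κ) (D : Datum κ)
    (S : Surface E) : Prop where
  openPart : IsOpenPart l s z D S.M S.g
  boundary : ∀ x, S.α (S.A.Ψ x) = S.H.Ψ (S.α x)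
  interior : ∀ x, S.π (S.M.Ψ x) = S.H.Ψ (S.π x)
  sum : LinearMap.range S.α ⊔ LinearMap.range S.π = ⊤
  semisimple : S.A.Ψ.IsSemisimple
  eigenvalues : ∀ (β : E) (v : S.A.V), v ≠ 0 → S.A.Ψ v = β • v →
    ∃ (a t : ℕ) (ζ : E), ζ ^ (l ^ t * (D.f.natDegree * D.h.natDegree)) = 1 ∧
      β = (Fintype.card κ : E) ^ a * ζ

/-- Every eigenvalue is an algebraic integer, which is mapped to a root of unity of order dividing `e`
by all homomorphisms from the ring of algebraic integers to fields of characteristic `l`. -/
def HasOrder (l e : ℕ) (Z : Space E) : Prop :=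
  ∀ (β : E) (w : Z.V), w ≠ 0 → Z.Ψ w = β • w → ∃ x : (integralClosure ℤ E).toSubring,
    (x : E) = β ∧ ∀ (k : Type) [Field k] [CharP k l]
      (θ : (integralClosure ℤ E).toSubring →+* k), θ x ^ e = 1

/-- The tensor product of the `A i`: the cohomology of a product of varieties (Künneth formula). -/
def Factors {ι : Type} (A : ι → Space E) : Type := ⨂[E] i, (A i).V

noncomputable instance {ι : Type} (A : ι → Space E) : AddCommGroup (Factors A) :=
  inferInstanceAs (AddCommGroup (⨂[E] i, (A i).V))

noncomputable instance {ι : Type} (A : ι → Space E) : Module E (Factors A) :=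
  inferInstanceAs (Module E (⨂[E] i, (A i).V))

/-- The Frobenius on it. -/
noncomputable def factorsFrobenius {ι : Type} (A : ι → Space E) : Module.End E (Factors A) :=
  PiTensorProduct.map fun i => (A i).Ψ

/-- The tensor product of `Z` and of the `A i`. -/
def Product (Z : Space E) {ι : Type} (A : ι → Space E) : Type := Z.V ⊗[E] Factors A

noncomputable instance (Z : Space E) {ι : Type} (A : ι → Space E) :
    AddCommGroup (Product Z A) :=
  inferInstanceAs (AddCommGroup (Z.V ⊗[E] Factors A))

noncomputable instance (Z : Space E) {ι : Type} (A : ι → Space E) : Module E (Product Z A) :=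
  inferInstanceAs (Module E (Z.V ⊗[E] Factors A))

/-- The Frobenius on it. -/
noncomputable def frobenius (Z : Space E) {ι : Type} (A : ι → Space E) :
    Module.End E (Product Z A) :=
  TensorProduct.map Z.Ψ (factorsFrobenius A)

/-- The generalized eigenspace of the `r`-th power of Frobenius for the eigenvalue `q ^ (r j)`. -/
noncomputable def part (q : ℕ) (Z : Space E) {ι : Type} (A : ι → Space E) (r : ℕ) (j : ℤ) :
    Submodule E (Product Z A) :=
  (frobenius Z A ^ r).maxGenEigenspace ((q : E) ^ ((r : ℤ) * j))

/-- The eigenvalue `q ^ (r j)` of the `r`-th power of Frobenius is semisimple. -/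
def IsSemisimpleAt (q : ℕ) (Z : Space E) {ι : Type} (A : ι → Space E) (r : ℕ) (j : ℤ) : Prop :=
  ∀ x ∈ part q Z A r j, (frobenius Z A ^ r) x = ((q : E) ^ ((r : ℤ) * j)) • x

/-- The tensor product of the maps `A i → H i`. -/
noncomputable def factorsCycles {ι : Type} (S : ι → Surface E) :
    Factors (fun i => (S i).A) →ₗ[E] Factors (fun i => (S i).H) :=
  PiTensorProduct.map fun i => (S i).α

/-- The tensor product of the identity of `Z` and of the maps `A i → H i`: products of classes of `Z` and
of classes of algebraic cycles on the surfaces. -/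
noncomputable def cycles (Z : Space E) {ι : Type} (S : ι → Surface E) :
    Product Z (fun i => (S i).A) →ₗ[E] Product Z (fun i => (S i).H) :=
  LinearMap.lTensor Z.V (factorsCycles S)

theorem value_eq {κ : Type} [Field κ] (L : Type) [Field L] [Algebra κ L] (D : Datum κ)
    (y : Fin 2 → L) : Pool.Agent.TH943.IP.GG L (fun _ : Fin 1 => D.h) D.f (fun _ => D.b) D.c y =
      value L D y := by
  unfold Pool.Agent.TH943.IP.GG value
  rw [Fin.prod_univ_one]
  have e1 : (Fin.last 1 : Fin 2) = 1 := rfl
  have e2 : (0 : Fin 1).succ = 1 := rfl
  have e3 : (0 : Fin 1).castSucc = 0 := rfl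
  rw [e1, e2, e3]
  ring

/-- generators of the cohomology of a surface -/
def gn (S : Surface E) (a : TH943.TP.EV S.A.Ψ ⊕ TH943.TP.EV S.M.Ψ) : S.H.V :=
  TH943.TP.gs S.A.Ψ S.M.Ψ S.α S.π a

/-- the products of generators -/
noncomputable def gnT {ι : Type} (S : ι → Surface E)
    (a : ∀ i, TH943.TP.EV (S i).A.Ψ ⊕ TH943.TP.EV (S i).M.Ψ) : Factors fun i => (S i).H :=
  PiTensorProduct.tprod E (s := fun i => (S i).H.V) fun i => gn (S i) (a i)

theorem gnT_val {ι : Type} [Fintype ι] (S : ι → Surface E)
    (hα : ∀ i x, (S i).α ((S i).A.Ψ x) = (S i).H.Ψ ((S i).α x))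
    (hπ : ∀ i x, (S i).π ((S i).M.Ψ x) = (S i).H.Ψ ((S i).π x))
    (a : ∀ i, TH943.TP.EV (S i).A.Ψ ⊕ TH943.TP.EV (S i).M.Ψ) :
    factorsFrobenius (fun i => (S i).H) (gnT S a) =
      (∏ i, TH943.TP.vl (S i).A.Ψ (S i).M.Ψ (a i)) • gnT S a := by
  have h1 : factorsFrobenius (fun i => (S i).H) (gnT S a) =
      PiTensorProduct.tprod E (s := fun i => (S i).H.V)
        (fun i => (S i).H.Ψ (gn (S i) (a i))) :=
    PiTensorProduct.map_tprod _ _
  have h2 : (fun i => (S i).H.Ψ (gn (S i) (a i))) =
      fun i => (TH943.TP.vl (S i).A.Ψ (S i).M.Ψ (a i) • gn (S i) (a i)) :=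
    funext fun i => TH943.TP.gs_val (S i).A.Ψ (S i).M.Ψ (S i).α (S i).π (S i).H.Ψ (hα i) (hπ i)
      (a i)
  rw [h1, h2]
  exact (PiTensorProduct.tprod E (s := fun i => (S i).H.V)).map_smul_univ
    (fun i => TH943.TP.vl (S i).A.Ψ (S i).M.Ψ (a i)) (fun i => gn (S i) (a i))

theorem gnT_span [IsAlgClosed E] {ι : Type} [Fintype ι] (S : ι → Surface E)
    (hΨ : ∀ i, (S i).A.Ψ.IsSemisimple) (hΦ : ∀ i, (S i).M.Ψ.IsSemisimple)
    (hsum : ∀ i, LinearMap.range (S i).α ⊔ LinearMap.range (S i).π = ⊤) :
    Submodule.span E (Set.range (gnT S)) = ⊤ := by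
  have h := PiTensorProduct.submodule_span_eq_top (R := E) (M := fun i => (S i).H.V)
    (g := fun i => gn (S i)) (fun i => TH943.TP.gs_span (S i).A.Ψ (S i).M.Ψ (hΨ i) (hΦ i)
      (S i).α (S i).π (hsum i))
  exact h

/-- the products of eigenvectors -/
noncomputable def bsT {ι : Type} (S : ι → Surface E)
    (a : ∀ i, TH943.TP.EV (S i).A.Ψ) : Factors fun i => (S i).A :=
  PiTensorProduct.tprod E (s := fun i => (S i).A.V) fun i => (a i).1.2

theorem bsT_val {ι : Type} [Fintype ι] (S : ι → Surface E)
    (a : ∀ i, TH943.TP.EV (S i).A.Ψ) :
    factorsFrobenius (fun i => (S i).A) (bsT S a) = (∏ i, (a i).1.1) • bsT S a := by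
  have h1 : factorsFrobenius (fun i => (S i).A) (bsT S a) =
      PiTensorProduct.tprod E (s := fun i => (S i).A.V) (fun i => (S i).A.Ψ (a i).1.2) :=
    PiTensorProduct.map_tprod _ _
  have h2 : (fun i => (S i).A.Ψ (a i).1.2) = fun i => ((a i).1.1 • (a i).1.2) :=
    funext fun i => (a i).2.2
  rw [h1, h2]
  exact (PiTensorProduct.tprod E (s := fun i => (S i).A.V)).map_smul_univ
    (fun i => (a i).1.1) (fun i => (a i).1.2)

theorem bsT_span [IsAlgClosed E] {ι : Type} [Fintype ι] (S : ι → Surface E)
    (hΨ : ∀ i, (S i).A.Ψ.IsSemisimple) :
    Submodule.span E (Set.range (bsT S)) = ⊤ := by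
  have h := PiTensorProduct.submodule_span_eq_top (R := E) (M := fun i => (S i).A.V)
    (g := fun i => fun x : TH943.TP.EV (S i).A.Ψ => x.1.2)
    (fun i => TH943.TP.span_ev (S i).A.Ψ (hΨ i))
  exact h

theorem cycles_bsT {ι : Type} (S : ι → Surface E)
    (a : ∀ i, TH943.TP.EV (S i).A.Ψ) :
    factorsCycles S (bsT S a) = gnT S fun i => Sum.inl (a i) := by
  have h1 : factorsCycles S (bsT S a) =
      PiTensorProduct.tprod E (s := fun i => (S i).H.V) (fun i => (S i).α (a i).1.2) :=
    PiTensorProduct.map_tprod _ _
  rw [h1]
  rfl

end cohomology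

/-- **The crystalline Tate conjecture for products of cyclic surfaces.**

Let `l` be a prime and `κ` a finite field with `q` elements which contains a primitive root of unity
`z` of order `l ^ s`, `s ≥ 1`. For every `i` in a finite set let `f_i` and `h_i` be polynomials over `κ` such
that `f_i(h_i(t))` is irreducible of degree `M_i` prime to `l`, and `b_i`, `c_i` positive integers prime
to `l`. Let `U_i` be the open set `(x - h_i(t)) f_i(x) ≠ 0` of the plane, `U'_i` its covering
`v ^ (l ^ s) = (x - h_i(t)) ^ (b_i) f_i(x) ^ (c_i)`, and `S_i` the smooth projective surface obtained by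
minimal resolution of the singularities from the normalization, in the function field of `U'_i`,
of the surface which results from the product of two projective lines by the `deg h_i` blowings up
which separate the curve `x = h_i(t)` from the line `x = ∞`; the geometric genus is not bounded.
Assume that for `i ≠ j` the degree of `h_i` is prime to `M_j`.

Facts (`IsSurface`). Let `E` be an algebraic closure of the field of fractions `K` of the ring of Witt
vectors of `κ`, `H_i` the whole crystalline cohomology of `S_i` with coefficients in `E`, with the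
`K`-linear Frobenius, `A_i` the space with the basis `S_i`, a point, and the curves, over the algebraic
closure of `κ`, in the complement of `U'_i`, and `M_i` the part of nontrivial characters of the rigid
cohomology with compact supports of degree two of `U'_i`. The other groups of rigid cohomology with
compact supports of `U'_i` have no nontrivial characters: in degrees less than two, as `U'_i` is affine
and smooth; in degree three, by duality, because `H¹` of `S_i` and the relations between the boundary
curves are the same as in `ℓ`-adic cohomology. So the trace formula (Etesse, Le Stum) gives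
`lefschetz` and, as the `L`-functions are polynomials of degree `M_i - deg f_i`, `dimension`. The
rational surface `S_i / g` has a Picard group generated by the boundary curves, as `U_i` is an open
set of the plane; in the part of nontrivial characters of `H²(S_i)` the image of `M_i` is the
orthogonal complement of the span of the boundary curves, and as `U'_i` is affine the two spaces span
it (Hodge index theorem); and `H¹(S_i)`, `H³(S_i)` are zero. The Frobenius permutes the boundary curves
with orbits whose lengths divide a power of `l` times `M_i`: these curves lie over the `M_i`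
intersection points of `x = h_i(t)` with `f_i(x) = 0`, over the `deg f_i` lines `f_i(x) = 0`, or over
curves and points defined over `κ`, and the covering group permutes those over a given curve or point.

Let `Z` be a smooth proper variety over `κ`, for instance a point or an abelian variety, with its
crystalline cohomology, in one or in all degrees; let the reductions of the eigenvalues of Frobenius in
characteristic `l` be roots of unity of orders dividing `e` (`HasOrder`; there is such an `e`), and the
degrees of the `h_i` prime to `e`. Let `r` be prime to the degrees of the `h_i`, `κ_r` the extension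
of `κ` of degree `r`.

Theorem. For all integers `j` all elements of the generalized eigenspace of the Frobenius over `κ_r` for
the eigenvalue `q ^ (r j)` on the cohomology of `Z × ∏ S_i` are combinations of products of classes of `Z`
with classes of algebraic cycles on the `S_i`, precisely, they are the images of the elements of the
same generalized eigenspace on the tensor product of the cohomology of `Z` with the `A_i`; and this
eigenvalue is semisimple if Frobenius is semisimple on the cohomology of `Z`.

Consequence. If `Z` is a point, Q1 holds in ALL codimensions for `∏ S_i` over `κ_r` (averaging over the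
Galois group the cycles are defined over `κ_r`), and the eigenvalues `q ^ (r j)` are semisimple. In
general Q1 holds for `Z × ∏ S_i` over `κ_r` if it holds for `Z` over all finite extensions, as the tensor
product with the `A_i` is a sum of twists of induced modules. The same proof applies to `ℓ`-adic
cohomology. -/
theorem result (l s : ℕ) (hl : l.Prime) (hs : 1 ≤ s) (κ : Type) [Field κ] [Fintype κ] (z : κ)
    (hz : IsPrimitiveRoot z (l ^ s)) (ι : Type) [Fintype ι] (D : ι → Datum κ)
    (hadm : ∀ i, IsAdmissible l (D i))
    (hcop : ∀ i j, i ≠ j → Nat.Coprime (D i).h.natDegree ((D j).f.natDegree * (D j).h.natDegree))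
    (E : Type) [Field E] [CharZero E] [IsAlgClosed E] (S : ι → Surface E)
    (hS : ∀ i, IsSurface l s z (D i) (S i)) (Z : Space E) (e : ℕ) (hZ : HasOrder l e Z)
    (he : ∀ i, Nat.Coprime (D i).h.natDegree e) (r : ℕ)
    (hr : ∀ i, Nat.Coprime (D i).h.natDegree r) (j : ℤ) :
    part (Fintype.card κ) Z (fun i => (S i).H) r j =
      (part (Fintype.card κ) Z (fun i => (S i).A) r j).map (cycles Z S) ∧
    (Z.Ψ.IsSemisimple → IsSemisimpleAt (Fintype.card κ) Z (fun i => (S i).H) r j) := by
  classical
  have hmain : ∀ i, (S i).M.Ψ.IsSemisimple ∧
      ∀ (k : Type) [Field k] [CharP k l] (θ : (integralClosure ℤ E).toSubring →+* k) (α : E)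
        (w : (S i).M.V), w ≠ 0 → (S i).M.Ψ w = α • w → ∃ x : (integralClosure ℤ E).toSubring,
          (x : E) = α ∧ θ x ^ ((D i).f.natDegree * (D i).h.natDegree) = 1 ∧
            θ x ^ (D i).f.natDegree ≠ 1 := by
    intro i
    have hcmp : Pool.Agent.TH943.IP.cmp 1 (fun _ : Fin 1 => (D i).h) (D i).f =
      (D i).f.comp (D i).h := rfl
    have hM := (hS i).openPart
    obtain ⟨hss, heig⟩ := Pool.Agent.TH943.TP.eig_main hl hs κ hz (r := 0)
      (fun _ : Fin 1 => (D i).h) (D i).f (b := fun _ => (D i).b) (c := (D i).c)
      (fun _ h0 => (hadm i).exponentH (by rw [h0]; exact dvd_zero l))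
      (fun h0 => (hadm i).exponentF (by rw [h0]; exact dvd_zero l))
      (by rw [hcmp]; exact (hadm i).irreducible)
      (by rw [hcmp, natDegree_comp]; exact (hadm i).degree) (S i).M.Ψ (S i).g hM.commute
      hM.order hM.noInvariants
      (by
        intro L _ _ _ j
        simp only [value_eq]
        have h1 := hM.lefschetz L j
        unfold fixCount openCount at h1
        rw [← h1]
        norm_num)
      (by
        intro ω hω1 hω
        have h1 := hM.dimension ω hω1 hω
        rw [hcmp, natDegree_comp]
        exact h1)
    rw [hcmp, natDegree_comp] at heig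
    exact ⟨hss, heig⟩
  have hM0 : ∀ i, 0 < (D i).f.natDegree * (D i).h.natDegree := fun i =>
    Nat.pos_of_ne_zero fun h0 => (hadm i).degree (by rw [h0]; exact dvd_zero l)
  have hq1 : 1 < Fintype.card κ := Fintype.one_lt_card
  have hq : ∀ (k : Type) [Field k] [CharP k l], ((Fintype.card κ : ℕ) : k) = 1 :=
    fun k _ _ => Pool.Agent.W528.HS.card_eq_one hl hs hz k
  have heigL : ∀ i, ∀ (k : Type) [Field k] [CharP k l]
      (θ : (integralClosure ℤ E).toSubring →+* k) (α : E) (w : (S i).A.V), w ≠ 0 →
        (S i).A.Ψ w = α • w → ∃ x : (integralClosure ℤ E).toSubring,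
          (x : E) = α ∧ θ x ^ ((D i).f.natDegree * (D i).h.natDegree) = 1 := by
    intro i k _ _ θ α w hw hα
    exact TH943.TP.eig_linear' hl hq (S i).A.Ψ (hM0 i) (hS i).eigenvalues k θ α w hw hα
  have hΨ : ∀ (k : Type) [Field k] [CharP k l] (θ : (integralClosure ℤ E).toSubring →+* k)
      (β : E) (w : Z.V), w ≠ 0 → Z.Ψ w = β • w →
        ∃ x : (integralClosure ℤ E).toSubring, (x : E) = β ∧ θ x ^ e = 1 := by
    intro k _ _ θ β w hw hβ
    obtain ⟨x, hx1, hx2⟩ := hZ β w hw hβ
    exact ⟨x, hx1, hx2 k θ⟩
  have hval := gnT_val S (fun i => (hS i).boundary) (fun i => (hS i).interior)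
  have hspan := gnT_span S (fun i => (hS i).semisimple) (fun i => (hmain i).1)
    (fun i => (hS i).sum)
  refine ⟨?_, fun hss x hx => ?_⟩
  · exact TH943.TP.open_main hl hq1 hq (fun i => (D i).f.natDegree)
      (fun i => (D i).h.natDegree) hcop (E := E)
      (L := fun i => (S i).A.V) (W := fun i => (S i).M.V) (fun i => (S i).A.Ψ)
      (fun i => (S i).M.Ψ) heigL (fun i => (hmain i).2) (factorsFrobenius fun i => (S i).H)
      (factorsFrobenius fun i => (S i).A) (factorsCycles S)
      (gnT S) hval hspan (bsT S) (bsT_val S) (bsT_span S fun i => (hS i).semisimple)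
      (cycles_bsT S) Z.Ψ hΨ he hr j
  · exact TH943.TP.tensor_ss Z.Ψ hss (factorsFrobenius fun i => (S i).H) (gnT S) _
      hval hspan r _ x hx

end Pool.Agent.Results.MP_60ec62_ag.ProductsOfCyclicSurfaces
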