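import Pool.Agent.TH5.ST.Galois

/-!
# Exact criterion for Tate classes on products of powers: the slope trace

Let `X i` be finitely many smooth projective varieties over finite fields of characteristic `p` and
`V i` the dual of (a part of) a cohomology group of `X i` (crystalline, or `ℓ`-adic), with
coefficients extended to an algebraically closed field, `F i` the transpose of the linear
Frobenius.  Suppose that `F i` is semisimple and that its eigenvalues are conjugates of one Weil
number `π i`, `|π i| ^ 2 = p ^ a i`, which generates a CM field `K i`; the numbers `v i τ`, the
`p`-adic valuations of `τ (π i)` for the embeddings `τ` of `K i` into the algebraic closure of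
`ℚ_p`, are the slopes of Frobenius.  Multilinear forms in variables `v k ∈ V (t k)` are the
elements of the tensor products of cohomology groups, Künneth components of products of the
`X i`.

(A) All Tate classes, over all finite extensions, in all these tensor products are linear
combinations of products of pairings `B (F x, F y) = p ^ a i B (x, y)`, that is of Tate classes on
the `X i × X i`, **if and only if** the slope trace
`(z i) ↦ ∑ i, ∑ τ, v i τ * τ (z i)` is injective on the families of elements `z i` of `K i` with
`conj (z i) = - z i`.  There is no condition on the slopes, on the degrees, the Galois groups or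
the ramification of the fields `K i`.

(B) Suppose that all `π i` are of K3 type with special embedding `x i : K i → ℚ_p`: the slope at
`x i` is smaller than `a i / 2` and at its conjugate larger, all others are `a i / 2` (ordinary K3
surfaces, ordinary elliptic curves, simple abelian varieties with slopes `0` and `1` once and all
others `1 / 2`).  Then this holds if and only if the odd parts `{z | conj z = - z}` of the fields
`x i (K i)` are linearly independent over `ℚ` in `ℚ_p`; for two factors, and for any number of
factors with fields `K i` that are Galois over `ℚ`, if and only if any two of the subfields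
`x i (K i)` of `ℚ_p` meet in a totally real field.

`IsWeil`, `SlopeTraceInjective` are defined in `Pool/Agent/TH5/ST/Defs.lean`, `OddIndependent` in
`Pool/Agent/TH5/ST/KThree.lean`, `MeetReal` in `Pool/Agent/TH5/ST/Galois.lean`, and
`PairingsGenerate`, `IsProductOfPairings`, `IsK3Type` in the start file
`Pool/Agent/H485R3/Exact/Defs.lean`.
-/

set_option autoImplicit false

namespace Pool.Agent.Results.MP_60ec62_ag.SlopeTraceCriterion

open NumberField NumberField.IsCMField Pool.Agent.TH5.ST Pool.Agent.H485R3.Exact

theorem result (p : ℕ) [Fact p.Prime] {I : Type} [Fintype I] (K : I → Type)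
    [∀ i, Field (K i)] [∀ i, NumberField (K i)] [∀ i, IsCMField (K i)] (a : I → ℕ)
    (π : ∀ i, K i) (v : ∀ i, (K i →+* PadicAlgCl p) → ℚ)
    (hW : ∀ i, IsWeil p (a i) (π i) (v i)) :
    (PairingsGenerate π (fun i => p ^ a i) ↔ SlopeTraceInjective p K v) ∧
    ∀ x : ∀ i, K i →+* ℚ_[p], (∀ i, IsK3Type p (a i) (x i) (π i)) →
      (PairingsGenerate π (fun i => p ^ a i) ↔ OddIndependent p K x) ∧
      ((Fintype.card I = 2 ∨ ∀ i, IsGalois ℚ (K i)) →
        (PairingsGenerate π (fun i => p ^ a i) ↔ MeetReal p K x)) := by
  have h1 := generate_iff p K a π v hW
  refine ⟨h1, fun x hx => ?_⟩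
  have h2 := h1.trans (slopeTraceInjective_iff p K a π v hW x hx)
  refine ⟨h2, fun h3 => h2.trans ⟨meetReal_of_oddIndependent p K x, fun h4 => ?_⟩⟩
  rcases h3 with h3 | h3
  · exact oddIndependent_of_two p K x h3 h4
  · exact oddIndependent_of_galois p K x h3 h4

end Pool.Agent.Results.MP_60ec62_ag.SlopeTraceCriterion
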